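import Mathlib

/-!
Charbit's spectral form of the Caccetta-Haggkvist conjecture fails for every `k ≥ 3` and all
large `n`, by a constant factor: blow up the directed cycle of length `k + 1` and put a transitive
tournament inside each part.
-/

set_option autoImplicit false

namespace Pool.Agent.Results.MP_ad5ca6_co.AllK

open Finset

/-- Arcs of the blow-up; the vertices of the second summand are isolated. -/
def adj {k m r : ℕ} : (ZMod (k + 1) × Fin m) ⊕ Fin r → (ZMod (k + 1) × Fin m) ⊕ Fin r → Prop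
  | Sum.inl u, Sum.inl v => v.1 = u.1 + 1 ∨ (v.1 = u.1 ∧ u.2 < v.2)
  | _, _ => False

lemma no_cycle {k m r l : ℕ} (hl : 0 < l) (hlk : l ≤ k)
    (v : Fin l → (ZMod (k + 1) × Fin m) ⊕ Fin r) (hv : ∀ i, adj (v i) (v (finRotate l i))) :
    False := by
  classical
  have h1 : ∀ i, ∃ u, v i = Sum.inl u := by
    intro i
    have := hv i
    rcases h : v i with u | u
    · exact ⟨u, rfl⟩
    · rw [h] at this
      exact this.elim
  choose u hu using h1
  have h2 : ∀ i, (u (finRotate l i)).1 = (u i).1 + 1 ∨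
      ((u (finRotate l i)).1 = (u i).1 ∧ (u i).2 < (u (finRotate l i)).2) := by
    intro i
    have := hv i
    rwa [hu, hu] at this
  set T := univ.filter fun i => (u (finRotate l i)).1 ≠ (u i).1 with hT
  have h3 : ∑ i, (u (finRotate l i)).1 = ∑ i, (u i).1 + (T.card : ZMod (k + 1)) := by
    rw [hT, card_filter, Nat.cast_sum, ← sum_add_distrib]
    refine sum_congr rfl fun i _ => ?_
    split_ifs with h
    · rcases h2 i with h' | h'
      · simpa using h'
      · exact (h h'.1).elim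
    · simpa using h
  rw [Equiv.sum_comp (finRotate l) fun i => (u i).1, left_eq_add, ZMod.natCast_eq_zero_iff] at h3
  have h4 : T.card ≤ l := by simpa using card_le_univ T
  have h5 : T.card = 0 := Nat.eq_zero_of_dvd_of_lt h3 (by omega)
  have h6 : ∀ i, ((u i).2 : ℕ) < (u (finRotate l i)).2 := by
    intro i
    have hi : (u (finRotate l i)).1 = (u i).1 := by
      by_contra h
      have : i ∈ T := mem_filter.mpr ⟨mem_univ _, h⟩
      rw [card_eq_zero.mp h5] at this
      simp at this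
    rcases h2 i with h' | h'
    · rw [hi, left_eq_add] at h'
      have h7 : (k + 1) ∣ 1 := (ZMod.natCast_eq_zero_iff 1 (k + 1)).mp (by simpa using h')
      have := Nat.le_of_dvd one_pos h7
      omega
    · exact h'.2
  have : Nonempty (Fin l) := ⟨⟨0, hl⟩⟩
  have h7 := sum_lt_sum_of_nonempty (univ_nonempty (α := Fin l)) fun i _ => h6 i
  rw [Equiv.sum_comp (finRotate l) fun i => ((u i).2 : ℕ)] at h7
  exact lt_irrefl _ h7

/-- The Perron vector. -/
noncomputable def vec {k m r : ℕ} (g : ℂ) : (ZMod (k + 1) × Fin m) ⊕ Fin r → ℂ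
  | Sum.inl u => g ^ (u.2.rev : ℕ)
  | Sum.inr _ => 0

open Classical in
lemma eigen {k m r : ℕ} (hk : 1 ≤ k) (g : ℂ) (hg : g ^ m = 2) (hg1 : g ≠ 1)
    (a : (ZMod (k + 1) × Fin m) ⊕ Fin r) :
    ∑ b, (if adj a b then 1 else 0) * vec g b = (g - 1)⁻¹ * vec g a := by
  have hg0 : g - 1 ≠ 0 := sub_ne_zero.mpr hg1
  rcases a with ⟨p, j⟩ | a
  · have hne : p + 1 ≠ p := by
      intro h
      rw [add_eq_left] at h
      have h7 : (k + 1) ∣ 1 := (ZMod.natCast_eq_zero_iff 1 (k + 1)).mp (by simpa using h)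
      have := Nat.le_of_dvd one_pos h7
      omega
    have e : ∀ (q : ZMod (k + 1)) (i : Fin m),
        (if adj (r := r) (Sum.inl (p, j)) (Sum.inl (q, i)) then (1 : ℂ) else 0) *
          vec (r := r) g (Sum.inl (q, i)) =
        (if q = p + 1 then g ^ (i.rev : ℕ) else 0) +
          (if q = p then (if j < i then g ^ (i.rev : ℕ) else 0) else 0) := by
      intro q i
      by_cases h1 : q = p + 1
      · subst h1
        simp [adj, vec, hne]
      · by_cases h2 : q = p
        · subst h2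
          by_cases h3 : j < i <;> simp [adj, vec, h1, h3]
        · simp [adj, h1, h2]
    rw [Fintype.sum_sum_type, Fintype.sum_prod_type_right]
    simp only [e, sum_add_distrib, sum_ite_eq', mem_univ, if_true]
    simp only [vec, mul_zero, sum_const_zero, add_zero]
    have s1 : ∑ i : Fin m, g ^ (i.rev : ℕ) = (g - 1)⁻¹ := by
      have := Equiv.sum_comp Fin.revPerm fun i : Fin m => g ^ (i : ℕ)
      simp only [Fin.revPerm_apply] at this
      rw [this, Fin.sum_univ_eq_sum_range, geom_sum_eq hg1, hg]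
      field_simp
      norm_num
    have s2 : ∑ i : Fin m, (if j < i then g ^ (i.rev : ℕ) else 0) =
        (g ^ (j.rev : ℕ) - 1) / (g - 1) := by
      rw [← Equiv.sum_comp Fin.revPerm]
      simp only [Fin.revPerm_apply, Fin.rev_rev]
      rw [← geom_sum_eq hg1, ← sum_filter]
      refine sum_bij (fun i _ => (i : ℕ)) ?_ ?_ ?_ ?_
      · intro i hi
        rw [mem_filter, Fin.lt_rev_iff] at hi
        exact mem_range.mpr hi.2
      · intro i _ i' _ h
        exact Fin.ext h
      · intro t ht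
        rw [mem_range] at ht
        exact ⟨⟨t, ht.trans j.rev.2⟩, mem_filter.mpr ⟨mem_univ _, Fin.lt_rev_iff.mpr ht⟩, rfl⟩
      · intro i _
        rfl
    rw [s1, s2]
    field_simp
    ring
  · simp [adj, vec]

lemma inv_exp_sub_one {x : ℝ} (hx : 0 < x) (hx1 : x ≤ 1) :
    1 / x - 1 / 2 ≤ (Real.exp x - 1)⁻¹ := by
  have h1 : 0 < Real.exp x - 1 := by linarith [Real.add_one_lt_exp hx.ne']
  have h2 := Real.exp_bound' hx.le hx1 (n := 3) (by norm_num)
  norm_num [Finset.sum_range_succ, Nat.factorial] at h2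
  rw [← one_div (Real.exp x - 1), le_div_iff₀ h1, div_sub_div _ _ hx.ne' two_ne_zero,
    div_mul_eq_mul_div, div_le_one (by positivity)]
  have h3 : Real.exp x - 1 ≤ x + x ^ 2 / 2 + x ^ 3 * (2 / 9) := by linarith
  have h4 : 0 ≤ 1 * 2 - x * 1 := by linarith
  calc (1 * 2 - x * 1) * (Real.exp x - 1)
      ≤ (1 * 2 - x * 1) * (x + x ^ 2 / 2 + x ^ 3 * (2 / 9)) := by gcongr
    _ ≤ x * 2 := by nlinarith [pow_pos hx 3, pow_pos hx 4]

lemma construction (k n : ℕ) (hk : 1 ≤ k) (hn : k + 1 ≤ n) :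
    ∃ A : Matrix (Fin n) (Fin n) ℂ, (∀ i j, A i j = 0 ∨ A i j = 1) ∧ (∀ i, A i i = 0) ∧
      (∃ μ ∈ spectrum ℂ A, (n : ℝ) / ((k + 1) * Real.log 2) - 2 ≤ ‖μ‖) ∧
      ¬ ∃ l : ℕ, 2 ≤ l ∧ l ≤ k ∧ ∃ v : Fin l → Fin n, Function.Injective v ∧
        ∀ i : Fin l, A (v i) (v (finRotate l i)) = 1 := by
  classical
  set m := n / (k + 1) with hm
  set r := n % (k + 1) with hr
  have hm1 : 1 ≤ m := (Nat.le_div_iff_mul_le (by omega)).mpr (by omega)
  have hcard : Fintype.card ((ZMod (k + 1) × Fin m) ⊕ Fin r) = n := by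
    simp only [Fintype.card_sum, Fintype.card_prod, ZMod.card, Fintype.card_fin]
    exact Nat.div_add_mod n (k + 1)
  set e := (Fintype.equivFinOfCardEq hcard).symm with he
  have hl2 := Real.log_two_gt_d9
  have hl2' := Real.log_two_lt_d9
  have hmR : (1 : ℝ) ≤ m := by exact_mod_cast hm1
  set x : ℝ := Real.log 2 / m with hx
  have hx0 : 0 < x := by positivity
  have hx1 : x ≤ 1 := by
    rw [hx, div_le_one (by positivity)]
    linarith
  have hexp : 1 < Real.exp x := by linarith [Real.add_one_lt_exp hx0.ne']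
  set g : ℂ := ((Real.exp x : ℝ) : ℂ) with hg
  have hgm : g ^ m = 2 := by
    rw [hg, ← Complex.ofReal_pow, ← Real.exp_nat_mul, hx, mul_div_cancel₀ _ (by positivity),
      Real.exp_log two_pos]
    norm_num
  have hg1 : g ≠ 1 := by
    rw [hg]
    exact_mod_cast hexp.ne'
  refine ⟨fun i j => if adj (e i) (e j) then 1 else 0, fun i j => ?_, fun i => ?_,
    ⟨(g - 1)⁻¹, ?_, ?_⟩, ?_⟩
  · by_cases h : adj (e i) (e j)
    · exact Or.inr (if_pos h)
    · exact Or.inl (if_neg h)
  · exact if_neg fun h => no_cycle one_pos hk (fun _ => e i) fun _ => h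
  · rw [spectrum.mem_iff, Matrix.isUnit_iff_isUnit_det, isUnit_iff_ne_zero, not_not,
      ← Matrix.exists_mulVec_eq_zero_iff]
    refine ⟨fun i => vec g (e i), ?_, ?_⟩
    · intro h
      have h1 := congrFun h (e.symm (Sum.inl (0, ⟨0, hm1⟩)))
      simp only [Equiv.apply_symm_apply, vec, Pi.zero_apply] at h1
      have : g ≠ 0 := by
        rw [hg]
        exact_mod_cast (Real.exp_pos x).ne'
      exact pow_ne_zero _ this h1
    · rw [Matrix.sub_mulVec, Algebra.algebraMap_eq_smul_one, Matrix.smul_mulVec,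
        Matrix.one_mulVec, sub_eq_zero]
      funext i
      simp only [Matrix.mulVec, dotProduct, Pi.smul_apply, smul_eq_mul]
      rw [← eigen hk g hgm hg1 (e i)]
      exact (Equiv.sum_comp e fun b => (if adj (e i) b then 1 else 0) * vec g b).symm
  · have h1 : (g - 1)⁻¹ = (((Real.exp x - 1)⁻¹ : ℝ) : ℂ) := by
      rw [hg]
      push_cast
      rfl
    rw [h1, Complex.norm_real, Real.norm_eq_abs, abs_of_pos (inv_pos.mpr (by linarith))]
    refine le_trans ?_ (inv_exp_sub_one hx0 hx1)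
    have h2 : (n : ℝ) ≤ (k + 1) * (m + 1) := by
      have : n ≤ (k + 1) * (m + 1) := (Nat.lt_mul_div_succ n (by omega)).le
      exact_mod_cast this
    have h3 : (n : ℝ) / ((k + 1) * Real.log 2) ≤ (m + 1) / Real.log 2 := by
      rw [div_le_div_iff₀ (by positivity) (by positivity)]
      nlinarith
    have h4 : 1 / x = m / Real.log 2 := by
      rw [hx]
      field_simp
    have h5 : 1 / Real.log 2 ≤ 3 / 2 := by
      rw [div_le_iff₀ (by positivity)]
      linarith
    rw [add_div] at h3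
    linarith
  · rintro ⟨l, h2, hlk, v, -, hv⟩
    refine no_cycle (by omega) hlk (fun i => e (v i)) fun i => ?_
    by_contra h
    exact zero_ne_one ((if_neg h).symm.trans (hv i))

/-- For every `k ≥ 3` and all large `n` there is a digraph on `n` vertices with no directed cycle
of length at most `k` whose adjacency matrix has an eigenvalue of modulus more than `n / k`, and
even at least `n / ((k + 1) log 2) - 2`. -/
theorem result (k : ℕ) (hk : 3 ≤ k) : ∃ n₀ : ℕ, ∀ n : ℕ, n₀ ≤ n →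
    ∃ A : Matrix (Fin n) (Fin n) ℂ, (∀ i j, A i j = 0 ∨ A i j = 1) ∧ (∀ i, A i i = 0) ∧
      (∃ μ ∈ spectrum ℂ A, (n : ℝ) / (k : ℝ) < ‖μ‖ ∧
        (n : ℝ) / (((k : ℝ) + 1) * Real.log 2) - 2 ≤ ‖μ‖) ∧
      ¬ ∃ l : ℕ, 2 ≤ l ∧ l ≤ k ∧ ∃ v : Fin l → Fin n, Function.Injective v ∧
        ∀ i : Fin l, A (v i) (v (finRotate l i)) = 1 := by
  refine ⟨30 * k, fun n hn => ?_⟩
  obtain ⟨A, h1, h2, ⟨μ, h3, h4⟩, h5⟩ := construction k n (by omega) (by omega)
  refine ⟨A, h1, h2, ⟨μ, h3, lt_of_lt_of_le ?_ h4, h4⟩, h5⟩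
  have hl2 := Real.log_two_gt_d9
  have hl2' := Real.log_two_lt_d9
  have hkR : (3 : ℝ) ≤ k := by exact_mod_cast hk
  have hnR : 30 * (k : ℝ) ≤ n := by exact_mod_cast hn
  have h6 : ((k : ℝ) + 1) * Real.log 2 ≤ 93 / 100 * k := by nlinarith
  have h7 : (n : ℝ) / (93 / 100 * k) ≤ n / ((k + 1) * Real.log 2) := by gcongr
  have h8 : (n : ℝ) / (93 / 100 * k) = 100 / 93 * (n / k) := by field_simp
  have h9 : 30 ≤ (n : ℝ) / k := by
    rw [le_div_iff₀ (by positivity)]
    exact hnR
  linarith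

end Pool.Agent.Results.MP_ad5ca6_co.AllK
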