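import Mathlib
import Pool.Agent.MP_ad5ca6_co.Upper
import Pool.Agent.Results.MP_ad5ca6_co.AllK

set_option autoImplicit false

namespace Pool.Agent.Results.MP_ad5ca6_co.SharpConstant

/-- Spectral radius at least `c n / k` forces a directed cycle of length at most `k`, for all `n`
and `k`, exactly when `c` is at least `1 / log 2`. -/
theorem result (c : ℝ) :
    (∀ (n k : ℕ), 0 < k → ∀ (A : Matrix (Fin n) (Fin n) ℂ), (∀ i j, A i j = 0 ∨ A i j = 1) →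
      (∀ i, A i i = 0) → (∃ μ ∈ spectrum ℂ A, c * ((n : ℝ) / (k : ℝ)) ≤ ‖μ‖) →
      ∃ m : ℕ, 2 ≤ m ∧ m ≤ k ∧ ∃ v : Fin m → Fin n, Function.Injective v ∧
        ∀ i : Fin m, A (v i) (v (finRotate m i)) = 1) ↔ 1 / Real.log 2 ≤ c := by
  have l0 := Real.log_pos one_lt_two
  refine ⟨fun h => ?_, fun hc n k hk A h1 h2 ⟨μ, h3, h4⟩ =>
    MP_ad5ca6_co.upper hk A h1 h2 h3 (le_trans (by gcongr) h4)⟩
  by_contra hc
  rw [not_le, lt_div_iff₀ l0] at hc
  obtain ⟨k, hk⟩ := exists_nat_gt (max 0 (c * Real.log 2 / (1 - c * Real.log 2)))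
  obtain ⟨k0, hk⟩ := max_lt_iff.1 hk
  rw [div_lt_iff₀ (by linarith)] at hk
  have k1 : 0 < k := by exact_mod_cast k0
  have e0 : 0 < 1 / ((k + 1) * Real.log 2) - c / k := by
    rw [sub_pos, div_lt_div_iff₀ k0 (by positivity)]
    linarith
  obtain ⟨N, hN⟩ := exists_nat_ge (2 / (1 / ((k + 1) * Real.log 2) - c / k))
  obtain ⟨A, h1, h2, ⟨μ, h3, h4⟩, h5⟩ := AllK.construction k (N + k + 1) k1 (by omega)
  refine h5 (h _ k k1 A h1 h2 ⟨μ, h3, le_trans ?_ h4⟩)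
  have h6 : (N : ℝ) ≤ (N + k + 1 : ℕ) := by exact_mod_cast (by omega : N ≤ N + k + 1)
  have h7 := (div_le_iff₀ e0).1 (hN.trans h6)
  rw [mul_sub, mul_one_div] at h7
  rw [mul_div_left_comm]
  linarith

end Pool.Agent.Results.MP_ad5ca6_co.SharpConstant
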